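import Pool.Agent.P8H31.VC.Stm3

/-!
Project VC of helper31, package E2 (helper4): the proof of `mean_var` of helper31
(`Pool.Agent.P8H31.NZ.Mean`) with equality.
-/

set_option autoImplicit false
open MeasureTheory Filter Topology Complex ProbabilityTheory
open scoped ContDiff ENNReal

namespace Pool.Agent.P8H4.VC

open Pool.Agent.W745.RW Pool.Agent.TH294.RS Pool.Agent.TH294.RG Pool.Agent.TH421.DF
open Pool.Agent.TH421.AC Pool.Agent.P8H31.NZ Pool.Agent.P8H31.VC

theorem e2 (hE1 : S_E1) : S_E2 := by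
  intro m ν Ω a h u K T H0 φ hφ hφ0 ε hε
  haveI := H0.mk1
  have hm := H0.hm
  have hms := H0.hms
  have hp := H0.hp
  have H := H0.H
  have hK := H0.hK
  have hKΩ := H0.hKΩ
  have hT := H0.hT
  have hB : IsOpen (interior K) := isOpen_interior
  have hBΩ : interior K ⊆ Ω := interior_subset.trans hKΩ
  have hmB : ∀ K' : Set ℂ, IsCompact K' → K' ⊆ interior K → MemLp m 2 (volume.restrict K') :=
    fun K' hK' hKB => hm K' hK' (hKB.trans hBΩ)
  have hpB : ∀ᵐ z ∂(volume.restrict (interior K)), par ea (ν z) = 0 :=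
    ae_restrict_of_ae_restrict_of_subset hBΩ hp
  have cu : ∀ n, ContinuousOn (fun z => u n z ^ 4) K := fun n =>
    ((H.sm n).continuousOn.mono hKΩ).pow 4
  have T0 : ∀ n, 0 ≤ ∫ z in K, u n z ^ 4 := fun n => integral_nonneg fun z => by positivity
  have Tn : 0 ≤ T := by
    obtain ⟨n, hn⟩ := hT.exists
    exact (T0 n).trans hn
  obtain ⟨Mφ, hMφ⟩ := hφ.2.1.exists_bound_of_continuousOn hφ.1.continuous.continuousOn
  have hφM : ∀ z, φ z ≤ |Mφ| := by
    intro z
    by_cases hz : z ∈ tsupport φ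
    · exact (le_abs_self _).trans ((hMφ z hz).trans (le_abs_self _))
    · rw [image_eq_zero_of_notMem_tsupport hz]; exact abs_nonneg _
  obtain ⟨A, hAd⟩ : ∃ A : ℝ, A = ∫ z, φ z * (m z * m z) := ⟨_, rfl⟩
  have hA2 : ∫ z, φ z * m z ^ 2 = A := by
    rw [hAd]; congr 1; funext z; ring
  have A0 : 0 ≤ A := by
    rw [hAd]; exact integral_nonneg fun z => mul_nonneg (hφ0 z) (mul_self_nonneg _)
  have H1 := H.cmp hBΩ tendsto_id
  have H1' : RawG (interior K) a h u (MM m ea ν) := H1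
  have A' := H1'.as hB (fun k => ((MM_ml ea_meas ea_norm (B := interior K) (ν := ν) hmB) k))
    (fun z => by rw [MM_0, conj_ofReal])
    (fun K' hK' hKB => ⟨T, hT.mono fun n hn => by
      have : ∫ z in K', u n z ^ 4 ≤ ∫ z in K, u n z ^ 4 := by
        refine setIntegral_mono_set ((cu _).integrableOn_compact hK)
          (ae_of_all _ fun z => by positivity) ?_
        exact (hKB.trans interior_subset).eventuallyLE
      linarith⟩)
  obtain ⟨w, hw⟩ : ∃ w : ℤ → ℕ → ℂ → ℂ, w = ww a h (fun n z => (u n z : ℂ)) := ⟨_, rfl⟩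
  rw [← hw] at A'
  have cw : ∀ q n, ContinuousOn (w q n) (interior K) := fun q n => (A'.bd q).co n
  have cm : ContinuousOn m (interior K) := hms.continuousOn.mono hBΩ
  have hφ2 : TF (interior K) (fun z => φ z * m z) := TF.mulc hB hφ (hms.mono hBΩ)
  have EC : ∀ᶠ n in atTop, (∫ z, φ z * u n z ^ 4) - 3 * A ≤ |Mφ| * T := by
    refine hT.mono fun n hn => ?_
    have i4 : Integrable (fun z => φ z * u n z ^ 4) :=
      Pool.Agent.W311.RW.int_mul hB hφ (((H.sm n).continuousOn.mono hBΩ).pow 4)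
    have e3 : ∫ z, φ z * u n z ^ 4 ≤ |Mφ| * ∫ z in K, u n z ^ 4 := by
      rw [← integral_const_mul, ← integral_indicator hK.measurableSet]
      have i3 : IntegrableOn (fun z => |Mφ| * u n z ^ 4) K :=
        (continuousOn_const.mul (cu n)).integrableOn_compact hK
      refine integral_mono i4 ((integrable_indicator_iff hK.measurableSet).2 i3) fun z => ?_
      by_cases hz : z ∈ K
      · rw [Set.indicator_of_mem hz]
        exact mul_le_mul_of_nonneg_right (hφM z) (by positivity)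
      · rw [Set.indicator_of_notMem hz]
        show φ z * _ ≤ 0
        rw [TF.zero hφ (fun h => hz (interior_subset h)), zero_mul]
    have := mul_le_mul_of_nonneg_left hn (abs_nonneg Mφ)
    linarith
  have MT0 : 0 ≤ |Mφ| * T := mul_nonneg (abs_nonneg _) Tn
  -- the choice of `N`
  obtain ⟨Q, hQ⟩ : ∃ Q : ℝ, Q = |Mφ| * T + 3 * A := ⟨_, rfl⟩
  have Q0 : 0 ≤ Q := by rw [hQ]; positivity
  have l1 := (Sw_lim (ν := ν) hB hmB hpB hφ (τ := sg) sg_norm).eventually
    (gt_mem_nhds (show (0 : ℝ) < ε / 8 by linarith))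
  have l2 := (av_sg.mul_const (1 / 3 * Q)).eventually
    (gt_mem_nhds (show 0 * (1 / 3 * Q) < ε / 8 by linarith))
  obtain ⟨N0, hN0⟩ := Filter.eventually_atTop.1 ((l1.and l2).and (eventually_gt_atTop 0))
  refine ⟨N0, fun N hNN => ?_⟩
  obtain ⟨⟨hN1, hN2⟩, hN⟩ := hN0 N hNN
  obtain ⟨s, hs⟩ : ∃ s : Finset ℤ, s = (Finset.Icc 1 N).map Nat.castEmbedding := ⟨_, rfl⟩
  obtain ⟨α, hα⟩ : ∃ α : ℤ → ℂ, α = fun k => (N : ℂ)⁻¹ * sg k := ⟨_, rfl⟩
  have s1 : ∑ k ∈ s, sg k * α k = 1 := by rw [hs, hα]; exact sum_one hN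
  have hFF : ∀ n z, FF a h u N n z = FA w 0 0 s α n z := by
    intro n z; rw [hw, hs, hα]; rfl
  have cF : ∀ n, ContinuousOn (FA w 0 0 s α n) (interior K) := fun n => by
    unfold FA
    exact continuousOn_finsetSum _ fun q _ => continuousOn_const.mul ((cw _ n).mul (cw _ n))
  have mean : Tendsto (fun n => ∫ z, (((φ z * m z : ℝ)) : ℂ) * FA w 0 0 s α n z) atTop
      (𝓝 (A : ℂ)) := by
    have h1 : ∀ k : ℤ, Tendsto (fun n => ∫ z, (((φ z * m z : ℝ)) : ℂ) *
        (w (0 + k) n z * w (0 - k) n z)) atTop (𝓝 (sg k * (A : ℂ))) := by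
      intro k
      have h2 := ((A'.two hB (0 + k) (0 - k)).lim _ hφ2)
      refine h2.trans_eq ?_
      congr 1
      have e3 : ∀ z, (((φ z * m z : ℝ)) : ℂ) * cc (MM m ea ν)
          (0 + k) (0 - k) z = sg k * ((φ z * (m z * m z) : ℝ) : ℂ) := by
        intro z
        rw [cc_sk]
        have : cc (MM m ea ν) 0 0 z = (m z : ℂ) := by
          simp [cc, MZ, MM_0]
        rw [this]; push_cast; ring
      simp only [e3]
      rw [integral_const_mul, integral_complex_ofReal, ← hAd]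
    have h3 := tendsto_finsetSum s fun k _ => (h1 k).const_mul (α k)
    have e4 : ∑ k ∈ s, α k * (sg k * (A : ℂ)) = (A : ℂ) := by
      have e5 : ∑ k ∈ s, α k * (sg k * (A : ℂ)) = (∑ k ∈ s, sg k * α k) * (A : ℂ) := by
        rw [Finset.sum_mul]
        refine Finset.sum_congr rfl fun k _ => ?_
        ring
      rw [e5, s1, one_mul]
    rw [e4] at h3
    refine h3.congr fun n => ?_
    unfold FA
    have jj : ∀ k : ℤ, Integrable (fun z => α k * ((((φ z * m z : ℝ)) : ℂ) *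
        (w (0 + k) n z * w (0 - k) n z))) := fun k =>
      (TF.cint hφ2 ((cw (0 + k) n).mul (cw (0 - k) n))).const_mul _
    simp only [← integral_const_mul]
    rw [← integral_finsetSum _ fun k _ => jj k]
    congr 1; funext z
    rw [Finset.mul_sum]
    refine Finset.sum_congr rfl fun k _ => ?_
    ring
  have var : ∀ n, ∫ z, φ z * ‖FA w 0 0 s α n z - (m z : ℂ)‖ ^ 2 =
      (∫ z, φ z * ‖FA w 0 0 s α n z‖ ^ 2) - 2 * (∫ z, (((φ z * m z : ℝ)) : ℂ) *
        FA w 0 0 s α n z).re + A := by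
    intro n
    have j1 : Integrable (fun z => φ z * ‖FA w 0 0 s α n z‖ ^ 2) :=
      Pool.Agent.W311.RW.int_mul hB hφ ((cF n).norm.pow 2)
    have j2 : Integrable (fun z => (((φ z * m z : ℝ)) : ℂ) * FA w 0 0 s α n z) :=
      TF.cint hφ2 (cF n)
    have j3 : Integrable (fun z => φ z * (m z * m z)) :=
      Pool.Agent.W311.RW.int_mul hB hφ (cm.mul cm)
    have j4 : Integrable (fun z => 2 * ((((φ z * m z : ℝ)) : ℂ) * FA w 0 0 s α n z).re) :=
      j2.re.const_mul 2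
    have j5 : Integrable (fun z => φ z * ‖FA w 0 0 s α n z‖ ^ 2 -
      2 * ((((φ z * m z : ℝ)) : ℂ) * FA w 0 0 s α n z).re) := j1.sub j4
    rw [hAd, show ((∫ z, (((φ z * m z : ℝ)) : ℂ) * FA w 0 0 s α n z).re) =
        ∫ z, ((((φ z * m z : ℝ)) : ℂ) * FA w 0 0 s α n z).re from
        (integral_re j2).symm, ← integral_const_mul, ← integral_sub j1 j4,
      ← integral_add j5 j3]
    congr 1; funext z
    have e5 : ‖FA w 0 0 s α n z - (m z : ℂ)‖ ^ 2 = ‖FA w 0 0 s α n z‖ ^ 2 -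
        2 * (m z * (FA w 0 0 s α n z).re) + (m z * m z) := by
      simp only [Complex.sq_norm, normSq_apply, sub_re, sub_im, ofReal_re, ofReal_im]
      ring
    have e6 : ((((φ z * m z : ℝ)) : ℂ) * FA w 0 0 s α n z).re =
        φ z * (m z * (FA w 0 0 s α n z).re) := by
      simp only [mul_re, ofReal_re, ofReal_im]
      ring
    rw [e5, e6]; ring
  have mre : Tendsto (fun n => (∫ z, (((φ z * m z : ℝ)) : ℂ) * FA w 0 0 s α n z).re) atTop
      (𝓝 A) := by
    have := (Complex.continuous_re.tendsto _).comp mean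
    simpa [Function.comp_def] using this
  have ev1 := mre.eventually (lt_mem_nhds (show A - ε / 8 < A by linarith))
  have ev1' := mre.eventually (gt_mem_nhds (show A < A + ε / 8 by linarith))
  have ev2 := hE1 H0 hφ hφ0 s α (ε / (8 * (1 + T))) (by positivity)
  filter_upwards [ev1, ev1', ev2, EC, hT] with n f1 f2 g2 g3 g4
  rw [← hw, ← hAd, s1, norm_one, one_pow, mul_one, mul_one] at g2
  have g5 : Sw (MM m ea ν) φ s α < ε / 8 := by rw [hs, hα]; exact hN1
  have g6 : ‖∑ k ∈ s, α k‖ ^ 2 * (1 / 3 * Q) < ε / 8 := by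
    have e7 : ∑ k ∈ s, α k = ∑ k ∈ Finset.Icc 1 N, (N : ℂ)⁻¹ * sg (k : ℤ) := by
      rw [hs, hα, Finset.sum_map]
      rfl
    rw [e7]; exact hN2
  have g7 : ε / (8 * (1 + T)) * (1 + ∫ z in K, u n z ^ 4) ≤ ε / 8 := by
    have h1 : ε / (8 * (1 + T)) * (1 + ∫ z in K, u n z ^ 4) ≤ ε / (8 * (1 + T)) * (1 + T) :=
      mul_le_mul_of_nonneg_left (by linarith) (by positivity)
    refine h1.trans (le_of_eq ?_)
    have : (1 + T) ≠ 0 := by positivity
    field_simp
  have E0 : 0 ≤ ∫ z, φ z * u n z ^ 4 :=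
    integral_nonneg fun z => mul_nonneg (hφ0 z) (by positivity)
  have hEQ : |(∫ z, φ z * u n z ^ 4) - 3 * A| ≤ Q := by
    rw [abs_le, hQ]
    have : 0 ≤ |Mφ| * T := MT0
    constructor <;> linarith
  have g8 : |1 / 3 * ‖∑ k ∈ s, α k‖ ^ 2 * ((∫ z, φ z * u n z ^ 4) - 3 * A)| ≤
      ‖∑ k ∈ s, α k‖ ^ 2 * (1 / 3 * Q) := by
    rw [abs_mul, abs_of_nonneg (show 0 ≤ 1 / 3 * ‖∑ k ∈ s, α k‖ ^ 2 by positivity)]
    have h1 := mul_le_mul_of_nonneg_left hEQ
      (show 0 ≤ 1 / 3 * ‖∑ k ∈ s, α k‖ ^ 2 by positivity)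
    linarith
  have e8 : (1 / 3 * ‖∑ k ∈ s, α k‖ ^ 2 + 2 / 3) * ((∫ z, φ z * u n z ^ 4) - 3 * A) =
      1 / 3 * ‖∑ k ∈ s, α k‖ ^ 2 * ((∫ z, φ z * u n z ^ 4) - 3 * A) +
      2 / 3 * ((∫ z, φ z * u n z ^ 4) - 3 * A) := by ring
  rw [e8] at g2
  simp only [hFF]
  rw [var n, ← hAd]
  rw [abs_le] at g2 g8 ⊢
  constructor <;> linarith [g2.1, g2.2, g8.1, g8.2]

end Pool.Agent.P8H4.VC
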