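import Pool.Agent.P8H31.VC.Stm4

/-!
Project VC of helper31, package GE2 (helper4): the averages `FG` for general `i`, `j` (from
`Pool.Agent.P8H4.VC.E2`, that is `mean_var` of helper31, with equality).
-/

set_option autoImplicit false
open MeasureTheory Filter Topology Complex ProbabilityTheory
open scoped ContDiff ENNReal

namespace Pool.Agent.P8H4.VC

open Pool.Agent.W745.RW Pool.Agent.TH294.RS Pool.Agent.TH294.RG Pool.Agent.TH421.DF
open Pool.Agent.TH421.AC Pool.Agent.P8H31.NZ Pool.Agent.P8H31.VC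

/-- the shift costs little -/
theorem Swg_le {M : ℕ → ℂ → ℂ} {φ : ℂ → ℝ} {A : ℝ} (f0 : ∀ k, 0 ≤ fK M φ k)
    (fA : ∀ k, fK M φ k ≤ A) (i j : ℤ) (N : ℕ) :
    Swg M φ i j ((Finset.Icc 1 N).map Nat.castEmbedding) (fun k => (N : ℂ)⁻¹ * sg k) ≤
      Sw M φ ((Finset.Icc 1 N).map Nat.castEmbedding) (fun k => (N : ℂ)⁻¹ * sg k) +
        |((i - j : ℤ) : ℝ)| * A * (N : ℝ)⁻¹ := by
  obtain ⟨q, hq⟩ : ∃ q, q = i - j := ⟨_, rfl⟩
  unfold Swg Sw
  simp only [Finset.sum_map, Nat.castEmbedding_apply, norm_mul, sg_norm, mul_one, norm_inv,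
    Complex.norm_natCast, ← hq]
  have T2 : ∑ k ∈ Finset.Icc 1 N, ∑ l ∈ Finset.Icc 1 N, fK M φ (q + (k : ℤ) + l) ≤
      (∑ k ∈ Finset.Icc 1 N, ∑ l ∈ Finset.Icc 1 N, fK M φ (0 - 0 + (k : ℤ) + l)) +
        N * (|(q : ℝ)| * A) := by
    rw [Finset.sum_comm, Finset.sum_comm (f := fun k l : ℕ => fK M φ (0 - 0 + (k : ℤ) + l))]
    have sh : ∀ l : ℕ, ∑ k ∈ Finset.Icc 1 N, fK M φ (q + (k : ℤ) + l) ≤
        (∑ k ∈ Finset.Icc 1 N, fK M φ (0 - 0 + (k : ℤ) + l)) + |(q : ℝ)| * A := fun l => by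
      have := shiftq q (fun K => fK M φ (0 - 0 + K + l)) (fun _ => f0 _) (fun _ => fA _) N
      refine le_trans (le_of_eq ?_) this
      refine Finset.sum_congr rfl fun k _ => ?_
      show fK M φ (q + (k : ℤ) + l) = fK M φ (0 - 0 + ((k : ℤ) + q) + l)
      congr 1; ring
    refine (Finset.sum_le_sum fun l _ => sh l).trans ?_
    rw [Finset.sum_add_distrib, Finset.sum_const, Nat.card_Icc, Nat.add_sub_cancel,
      nsmul_eq_mul]
  simp only [← Finset.mul_sum, Finset.sum_add_distrib]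
  have c0 : 0 ≤ (N : ℝ)⁻¹ * (N : ℝ)⁻¹ := by positivity
  have fin := mul_le_mul_of_nonneg_left (add_le_add_right T2
    (∑ k ∈ Finset.Icc 1 N, ∑ l ∈ Finset.Icc 1 N, fK M φ ((k : ℤ) - l))) c0
  refine fin.trans (le_of_eq ?_)
  rcases Nat.eq_zero_or_pos N with rfl | hN
  · simp
  · have : (N : ℝ) ≠ 0 := by exact_mod_cast hN.ne'
    field_simp
    ring

theorem ge2 (hE1 : S_GE1) : S_GE2 := by
  intro m ν Ω a h u K T H0 φ hφ hφ0 i j c hc hcc ε hε
  haveI := H0.mk1
  have hm := H0.hm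
  have hms := H0.hms
  have hp := H0.hp
  have H := H0.H
  have hK := H0.hK
  have hKΩ := H0.hKΩ
  have hT := H0.hT
  have hB : IsOpen (interior K) := isOpen_interior
  have hBΩ : interior K ⊆ Ω := interior_subset.trans hKΩ
  have hmB : ∀ K' : Set ℂ, IsCompact K' → K' ⊆ interior K → MemLp m 2 (volume.restrict K') :=
    fun K' hK' hKB => hm K' hK' (hKB.trans hBΩ)
  have hpB : ∀ᵐ z ∂(volume.restrict (interior K)), par ea (ν z) = 0 :=
    ae_restrict_of_ae_restrict_of_subset hBΩ hp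
  have cu : ∀ n, ContinuousOn (fun z => u n z ^ 4) K := fun n =>
    ((H.sm n).continuousOn.mono hKΩ).pow 4
  have T0 : ∀ n, 0 ≤ ∫ z in K, u n z ^ 4 := fun n => integral_nonneg fun z => by positivity
  have Tn : 0 ≤ T := by
    obtain ⟨n, hn⟩ := hT.exists
    exact (T0 n).trans hn
  obtain ⟨Mφ, hMφ⟩ := hφ.2.1.exists_bound_of_continuousOn hφ.1.continuous.continuousOn
  have hφM : ∀ z, φ z ≤ |Mφ| := by
    intro z
    by_cases hz : z ∈ tsupport φ
    · exact (le_abs_self _).trans ((hMφ z hz).trans (le_abs_self _))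
    · rw [image_eq_zero_of_notMem_tsupport hz]; exact abs_nonneg _
  obtain ⟨A, hAd⟩ : ∃ A : ℝ, A = ∫ z, φ z * (m z * m z) := ⟨_, rfl⟩
  have hA2 : ∫ z, φ z * m z ^ 2 = A := by
    rw [hAd]; congr 1; funext z; ring
  have A0 : 0 ≤ A := by
    rw [hAd]; exact integral_nonneg fun z => mul_nonneg (hφ0 z) (mul_self_nonneg _)
  have H1 := H.cmp hBΩ tendsto_id
  have H1' : RawG (interior K) a h u (MM m ea ν) := H1
  have A' := H1'.as hB (fun k => ((MM_ml ea_meas ea_norm (B := interior K) (ν := ν) hmB) k))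
    (fun z => by rw [MM_0, conj_ofReal])
    (fun K' hK' hKB => ⟨T, hT.mono fun n hn => by
      have : ∫ z in K', u n z ^ 4 ≤ ∫ z in K, u n z ^ 4 := by
        refine setIntegral_mono_set ((cu _).integrableOn_compact hK)
          (ae_of_all _ fun z => by positivity) ?_
        exact (hKB.trans interior_subset).eventuallyLE
      linarith⟩)
  obtain ⟨w, hw⟩ : ∃ w : ℤ → ℕ → ℂ → ℂ, w = ww a h (fun n z => (u n z : ℂ)) := ⟨_, rfl⟩
  rw [← hw] at A'
  have cw : ∀ q n, ContinuousOn (w q n) (interior K) := fun q n => (A'.bd q).co n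
  have cm : ContinuousOn m (interior K) := hms.continuousOn.mono hBΩ
  have hφ2 : TF (interior K) (fun z => φ z * m z) := TF.mulc hB hφ (hms.mono hBΩ)
  have EC : ∀ᶠ n in atTop, (∫ z, φ z * u n z ^ 4) - 3 * A ≤ |Mφ| * T := by
    refine hT.mono fun n hn => ?_
    have i4 : Integrable (fun z => φ z * u n z ^ 4) :=
      Pool.Agent.W311.RW.int_mul hB hφ (((H.sm n).continuousOn.mono hBΩ).pow 4)
    have e3 : ∫ z, φ z * u n z ^ 4 ≤ |Mφ| * ∫ z in K, u n z ^ 4 := by
      rw [← integral_const_mul, ← integral_indicator hK.measurableSet]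
      have i3 : IntegrableOn (fun z => |Mφ| * u n z ^ 4) K :=
        (continuousOn_const.mul (cu n)).integrableOn_compact hK
      refine integral_mono i4 ((integrable_indicator_iff hK.measurableSet).2 i3) fun z => ?_
      by_cases hz : z ∈ K
      · rw [Set.indicator_of_mem hz]
        exact mul_le_mul_of_nonneg_right (hφM z) (by positivity)
      · rw [Set.indicator_of_notMem hz]
        show φ z * _ ≤ 0
        rw [TF.zero hφ (fun h => hz (interior_subset h)), zero_mul]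
    have := mul_le_mul_of_nonneg_left hn (abs_nonneg Mφ)
    linarith
  have MT0 : 0 ≤ |Mφ| * T := mul_nonneg (abs_nonneg _) Tn
  have hcB : ContDiffOn ℝ ∞ c (interior K) := hc.mono hBΩ
  have hcr : ContDiffOn ℝ ∞ (fun z => (c z).re) (interior K) :=
    Complex.reCLM.contDiff.comp_contDiffOn hcB
  have hci : ContDiffOn ℝ ∞ (fun z => (c z).im) (interior K) :=
    Complex.imCLM.contDiff.comp_contDiffOn hcB
  have hφr : TF (interior K) (fun z => φ z * (c z).re) := TF.mulc hB hφ hcr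
  have hφi : TF (interior K) (fun z => φ z * (c z).im) := TF.mulc hB hφ hci
  have hccB : ∀ᵐ z : ℂ, z ∈ interior K → cc (MM m ea ν) i j z = c z :=
    (ae_restrict_iff' hB.measurableSet).1 (ae_restrict_of_ae_restrict_of_subset hBΩ hcc)
  obtain ⟨Ac, hAc⟩ : ∃ Ac : ℝ, Ac = ∫ z, φ z * ‖c z‖ ^ 2 := ⟨_, rfl⟩
  have hAc2 : ∫ z, φ z * ‖cc (MM m ea ν) i j z‖ ^ 2 = Ac := by
    rw [hAc]
    refine integral_congr_ae ?_
    filter_upwards [hccB] with z hz
    by_cases hzK : z ∈ interior K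
    · rw [hz hzK]
    · rw [TF.zero hφ hzK, zero_mul, zero_mul]
  have f0 : ∀ k, 0 ≤ fK (MM m ea ν) φ k := fun k => fK_nn hφ0 k
  have fA : ∀ k, fK (MM m ea ν) φ k ≤ A := fun k => by
    rw [hAd]; exact fK_MM (ν := ν) hmB hφ hφ0 k
  -- the choice of `N`
  obtain ⟨Q, hQ⟩ : ∃ Q : ℝ, Q = |Mφ| * T + 3 * A := ⟨_, rfl⟩
  have Q0 : 0 ≤ Q := by rw [hQ]; positivity
  have l1 := (Sw_lim (ν := ν) hB hmB hpB hφ (τ := sg) sg_norm).eventually
    (gt_mem_nhds (show (0 : ℝ) < ε / 16 by linarith))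
  have l2 := (av_sg.mul_const (1 / 3 * Q)).eventually
    (gt_mem_nhds (show 0 * (1 / 3 * Q) < ε / 8 by linarith))
  have l3 := ((tendsto_inv_atTop_nhds_zero_nat (𝕜 := ℝ)).const_mul (|((i - j : ℤ) : ℝ)| * A)).eventually
    (gt_mem_nhds (show |((i - j : ℤ) : ℝ)| * A * 0 < ε / 16 by linarith))
  obtain ⟨N0, hN0⟩ := Filter.eventually_atTop.1
    (((l1.and l2).and l3).and (eventually_gt_atTop 0))
  refine ⟨N0, fun N hNN => ?_⟩
  obtain ⟨⟨⟨hN1', hN2⟩, hN3⟩, hN⟩ := hN0 N hNN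
  have hN1 : Swg (MM m ea ν) φ i j ((Finset.Icc 1 N).map Nat.castEmbedding)
      (fun k => (N : ℂ)⁻¹ * sg k) < ε / 8 := by
    have := Swg_le f0 fA i j N
    linarith
  obtain ⟨s, hs⟩ : ∃ s : Finset ℤ, s = (Finset.Icc 1 N).map Nat.castEmbedding := ⟨_, rfl⟩
  obtain ⟨α, hα⟩ : ∃ α : ℤ → ℂ, α = fun k => (N : ℂ)⁻¹ * sg k := ⟨_, rfl⟩
  have s1 : ∑ k ∈ s, sg k * α k = 1 := by rw [hs, hα]; exact sum_one hN
  have hFG : ∀ n z, FG a h u i j N n z = FA w i j s α n z := by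
    intro n z; rw [hw, hs, hα]; rfl
  have cF : ∀ n, ContinuousOn (FA w i j s α n) (interior K) := fun n => by
    unfold FA
    exact continuousOn_finsetSum _ fun q _ => continuousOn_const.mul ((cw _ n).mul (cw _ n))
  have mean : ∀ ψ : ℂ → ℝ, TF (interior K) ψ → Tendsto (fun n => ∫ z, ((ψ z : ℝ) : ℂ) *
      FA w i j s α n z) atTop (𝓝 (∫ z, ((ψ z : ℝ) : ℂ) * c z)) := by
    intro ψ hψ
    have h1 : ∀ k : ℤ, Tendsto (fun n => ∫ z, ((ψ z : ℝ) : ℂ) *
        (w (i + k) n z * w (j - k) n z)) atTop (𝓝 (sg k * ∫ z, ((ψ z : ℝ) : ℂ) * c z)) := by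
      intro k
      have h2 := ((A'.two hB (i + k) (j - k)).lim _ hψ)
      refine h2.trans_eq ?_
      congr 1
      rw [← integral_const_mul]
      refine integral_congr_ae ?_
      filter_upwards [hccB] with z hz
      rw [cc_sk]
      by_cases hzK : z ∈ interior K
      · rw [hz hzK]; ring
      · rw [TF.zero hψ hzK]; push_cast; ring
    have h3 := tendsto_finsetSum s fun k _ => (h1 k).const_mul (α k)
    have e4 : ∑ k ∈ s, α k * (sg k * ∫ z, ((ψ z : ℝ) : ℂ) * c z) = ∫ z, ((ψ z : ℝ) : ℂ) * c z := by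
      have e5 : ∑ k ∈ s, α k * (sg k * ∫ z, ((ψ z : ℝ) : ℂ) * c z) =
          (∑ k ∈ s, sg k * α k) * ∫ z, ((ψ z : ℝ) : ℂ) * c z := by
        rw [Finset.sum_mul]
        refine Finset.sum_congr rfl fun k _ => ?_
        ring
      rw [e5, s1, one_mul]
    rw [e4] at h3
    refine h3.congr fun n => ?_
    unfold FA
    have jj : ∀ k : ℤ, Integrable (fun z => α k * (((ψ z : ℝ) : ℂ) *
        (w (i + k) n z * w (j - k) n z))) := fun k =>
      (TF.cint hψ ((cw (i + k) n).mul (cw (j - k) n))).const_mul _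
    simp only [← integral_const_mul]
    rw [← integral_finsetSum _ fun k _ => jj k]
    congr 1; funext z
    rw [Finset.mul_sum]
    refine Finset.sum_congr rfl fun k _ => ?_
    ring
  obtain ⟨X, hX⟩ : ∃ X : ℕ → ℝ, X = fun n =>
      (∫ z, (((φ z * (c z).re : ℝ)) : ℂ) * FA w i j s α n z).re +
      (∫ z, (((φ z * (c z).im : ℝ)) : ℂ) * FA w i j s α n z).im := ⟨_, rfl⟩
  have cc0 : ContinuousOn c (interior K) := hcB.continuousOn
  have var : ∀ n, ∫ z, φ z * ‖FA w i j s α n z - c z‖ ^ 2 =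
      (∫ z, φ z * ‖FA w i j s α n z‖ ^ 2) - 2 * X n + Ac := by
    intro n
    have j1 : Integrable (fun z => φ z * ‖FA w i j s α n z‖ ^ 2) :=
      Pool.Agent.W311.RW.int_mul hB hφ ((cF n).norm.pow 2)
    have j2 : Integrable (fun z => (((φ z * (c z).re : ℝ)) : ℂ) * FA w i j s α n z) :=
      TF.cint hφr (cF n)
    have j2' : Integrable (fun z => (((φ z * (c z).im : ℝ)) : ℂ) * FA w i j s α n z) :=
      TF.cint hφi (cF n)
    have j3 : Integrable (fun z => φ z * ‖c z‖ ^ 2) :=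
      Pool.Agent.W311.RW.int_mul hB hφ (cc0.norm.pow 2)
    have j4 : Integrable (fun z => 2 * (((((φ z * (c z).re : ℝ)) : ℂ) * FA w i j s α n z).re +
        ((((φ z * (c z).im : ℝ)) : ℂ) * FA w i j s α n z).im)) := (j2.re.add j2'.im).const_mul 2
    have j5 : Integrable (fun z => φ z * ‖FA w i j s α n z‖ ^ 2 -
      2 * (((((φ z * (c z).re : ℝ)) : ℂ) * FA w i j s α n z).re +
        ((((φ z * (c z).im : ℝ)) : ℂ) * FA w i j s α n z).im)) := j1.sub j4
    have eX : X n = ∫ z, (((((φ z * (c z).re : ℝ)) : ℂ) * FA w i j s α n z).re +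
        ((((φ z * (c z).im : ℝ)) : ℂ) * FA w i j s α n z).im) := by
      rw [hX]
      simp only
      rw [show ((∫ z, (((φ z * (c z).re : ℝ)) : ℂ) * FA w i j s α n z).re) =
        ∫ z, ((((φ z * (c z).re : ℝ)) : ℂ) * FA w i j s α n z).re from
        (integral_re j2).symm, show ((∫ z, (((φ z * (c z).im : ℝ)) : ℂ) * FA w i j s α n z).im) =
        ∫ z, ((((φ z * (c z).im : ℝ)) : ℂ) * FA w i j s α n z).im from
        (integral_im j2').symm]
      exact (integral_add j2.re j2'.im).symm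
    rw [hAc, eX, ← integral_const_mul, ← integral_sub j1 j4, ← integral_add j5 j3]
    congr 1; funext z
    have e5 : ‖FA w i j s α n z - c z‖ ^ 2 = ‖FA w i j s α n z‖ ^ 2 -
        2 * ((c z).re * (FA w i j s α n z).re + (c z).im * (FA w i j s α n z).im) + ‖c z‖ ^ 2 := by
      simp only [Complex.sq_norm, normSq_apply, sub_re, sub_im]
      ring
    have e6 : ((((φ z * (c z).re : ℝ)) : ℂ) * FA w i j s α n z).re =
        φ z * ((c z).re * (FA w i j s α n z).re) := by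
      simp only [mul_re, ofReal_re, ofReal_im]
      ring
    have e7 : ((((φ z * (c z).im : ℝ)) : ℂ) * FA w i j s α n z).im =
        φ z * ((c z).im * (FA w i j s α n z).im) := by
      simp only [mul_im, ofReal_re, ofReal_im]
      ring
    rw [e5, e6, e7]; ring
  have mre : Tendsto X atTop (𝓝 Ac) := by
    have t1 := (Complex.continuous_re.tendsto _).comp (mean _ hφr)
    have t2 := (Complex.continuous_im.tendsto _).comp (mean _ hφi)
    have t3 := t1.add t2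
    rw [hX]
    refine t3.trans_eq ?_
    congr 1
    have k2 : Integrable (fun z => (((φ z * (c z).re : ℝ)) : ℂ) * c z) := TF.cint hφr cc0
    have k2' : Integrable (fun z => (((φ z * (c z).im : ℝ)) : ℂ) * c z) := TF.cint hφi cc0
    rw [show ((∫ z, (((φ z * (c z).re : ℝ)) : ℂ) * c z).re) =
        ∫ z, ((((φ z * (c z).re : ℝ)) : ℂ) * c z).re from
        (integral_re k2).symm, show ((∫ z, (((φ z * (c z).im : ℝ)) : ℂ) * c z).im) =
        ∫ z, ((((φ z * (c z).im : ℝ)) : ℂ) * c z).im from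
        (integral_im k2').symm, hAc]
    refine (integral_add k2.re k2'.im).symm.trans ?_
    congr 1; funext z
    show ((((φ z * (c z).re : ℝ)) : ℂ) * c z).re + ((((φ z * (c z).im : ℝ)) : ℂ) * c z).im =
      φ z * ‖c z‖ ^ 2
    simp only [Complex.sq_norm, normSq_apply, mul_re, mul_im, ofReal_re, ofReal_im]
    ring
  have ev1 := mre.eventually (lt_mem_nhds (show Ac - ε / 8 < Ac by linarith))
  have ev1' := mre.eventually (gt_mem_nhds (show Ac < Ac + ε / 8 by linarith))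
  have ev2 := hE1 H0 hφ hφ0 i j s α (ε / (8 * (1 + T))) (by positivity)
  filter_upwards [ev1, ev1', ev2, EC, hT] with n f1 f2 g2 g3 g4
  rw [← hw, ← hAd, hAc2, s1, norm_one, one_pow, mul_one, mul_one] at g2
  have g5 : Swg (MM m ea ν) φ i j s α < ε / 8 := by rw [hs, hα]; exact hN1
  have g6 : ‖∑ k ∈ s, α k‖ ^ 2 * (1 / 3 * Q) < ε / 8 := by
    have e7 : ∑ k ∈ s, α k = ∑ k ∈ Finset.Icc 1 N, (N : ℂ)⁻¹ * sg (k : ℤ) := by
      rw [hs, hα, Finset.sum_map]
      rfl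
    rw [e7]; exact hN2
  have g7 : ε / (8 * (1 + T)) * (1 + ∫ z in K, u n z ^ 4) ≤ ε / 8 := by
    have h1 : ε / (8 * (1 + T)) * (1 + ∫ z in K, u n z ^ 4) ≤ ε / (8 * (1 + T)) * (1 + T) :=
      mul_le_mul_of_nonneg_left (by linarith) (by positivity)
    refine h1.trans (le_of_eq ?_)
    have : (1 + T) ≠ 0 := by positivity
    field_simp
  have E0 : 0 ≤ ∫ z, φ z * u n z ^ 4 :=
    integral_nonneg fun z => mul_nonneg (hφ0 z) (by positivity)
  have hEQ : |(∫ z, φ z * u n z ^ 4) - 3 * A| ≤ Q := by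
    rw [abs_le, hQ]
    have : 0 ≤ |Mφ| * T := MT0
    constructor <;> linarith
  have g8 : |1 / 3 * ‖∑ k ∈ s, α k‖ ^ 2 * ((∫ z, φ z * u n z ^ 4) - 3 * A)| ≤
      ‖∑ k ∈ s, α k‖ ^ 2 * (1 / 3 * Q) := by
    rw [abs_mul, abs_of_nonneg (show 0 ≤ 1 / 3 * ‖∑ k ∈ s, α k‖ ^ 2 by positivity)]
    have h1 := mul_le_mul_of_nonneg_left hEQ
      (show 0 ≤ 1 / 3 * ‖∑ k ∈ s, α k‖ ^ 2 by positivity)
    linarith
  have e8 : (1 / 3 * ‖∑ k ∈ s, α k‖ ^ 2 + kap i j) * ((∫ z, φ z * u n z ^ 4) - 3 * A) =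
      1 / 3 * ‖∑ k ∈ s, α k‖ ^ 2 * ((∫ z, φ z * u n z ^ 4) - 3 * A) +
      kap i j * ((∫ z, φ z * u n z ^ 4) - 3 * A) := by ring
  rw [e8] at g2
  simp only [hFG]
  rw [var n, ← hAd]
  rw [abs_le] at g2 g8 ⊢
  constructor <;> linarith [g2.1, g2.2, g8.1, g8.2]

end Pool.Agent.P8H4.VC
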