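import Pool.Agent.P8H31.VC.Stm5
import Pool.Agent.P8H4.VC.Ge2
import Pool.Agent.TH294.RG.Js2

/-!
Project VC of helper31, package FE2 (helper4): the averages `FG` of the scaled sequence (from
`Pool.Agent.P8H4.VC.Ge2`, without the bound `T`).
-/

set_option autoImplicit false
open MeasureTheory Filter Topology Complex ProbabilityTheory
open scoped ContDiff ENNReal

namespace Pool.Agent.P8H4.VC

open Pool.Agent.W745.RW Pool.Agent.TH294.RS Pool.Agent.TH294.RG Pool.Agent.TH421.DF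
open Pool.Agent.TH421.AC Pool.Agent.P8H31.NZ Pool.Agent.P8H31.VC

/-- continuity of the ladder -/
theorem ww_co {B : Set ℂ} (hB : IsOpen B) {a : ℂ → ℝ} (h : ℕ → ℝ) {u : ℕ → ℂ → ℝ}
    (ha : ContDiffOn ℝ ∞ a B) (hu : ∀ n, ContDiffOn ℝ ∞ (u n) B) (k : ℤ) (n : ℕ) :
    ContinuousOn (ww a h (fun n z => (u n z : ℂ)) k n) B := by
  have s1 : ∀ j : ℕ, ContDiffOn ℝ ∞ (wn a h (fun n z => (u n z : ℂ)) j n) B := fun j =>
    DPk_sm hB ha (h n) (ofRealCLM.contDiff.comp_contDiffOn (hu n)) j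
  have hr : ∀ n z, (starRingEnd ℂ) ((u n z : ℂ)) = (u n z : ℂ) := fun n z => conj_ofReal _
  rcases Int.eq_nat_or_neg k with ⟨j, rfl | rfl⟩
  · exact (s1 j).continuousOn
  · have e1 : ww a h (fun n z => (u n z : ℂ)) (-(j : ℤ)) n = fun z =>
        (-1) ^ j * (starRingEnd ℂ) (wn a h (fun n z => (u n z : ℂ)) j n z) := by
      funext z
      rw [ww_neg hr]
    rw [e1]
    exact continuousOn_const.mul (continuous_conj.comp_continuousOn (s1 j).continuousOn)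

theorem cc_sc (M : ℕ → ℂ → ℂ) (κ : ℝ) (i j : ℤ) (z : ℂ) :
    cc (fun k z => (κ : ℂ) ^ 2 * M k z) i j z = (κ : ℂ) ^ 2 * cc M i j z := by
  unfold cc MZ
  split_ifs
  · ring
  · rw [map_mul, map_pow, conj_ofReal]; ring
  · simp

/-- the two point limits of the scaled sequence -/
theorem two_sc {m : ℂ → ℝ} {ν : Kernel ℂ ℝ} {Ω : Set ℂ} {a : ℂ → ℝ} {h : ℕ → ℝ}
    {u : ℕ → ℂ → ℝ} {K : Set ℂ} (H0 : HypF m ν Ω a h u K) (i j : ℤ) {ψ : ℂ → ℝ}
    (hψ : TF (interior K) ψ) :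
    Tendsto (fun n => ((fc K u n : ℝ) : ℂ) ^ 2 * ((∫ z, ((ψ z : ℝ) : ℂ) *
      (ww a h (fun n z => (u n z : ℂ)) i n z * ww a h (fun n z => (u n z : ℂ)) j n z)) -
      ∫ z, ((ψ z : ℝ) : ℂ) * cc (MM m ea ν) i j z)) atTop (𝓝 0) := by
  haveI := H0.mk1
  have H := H0.H
  refine tendsto_of_subseq_tendsto fun ns hns => ?_
  obtain ⟨κ, hκ, σ, hσ, hσc⟩ := isCompact_Icc.tendsto_subseq (s := Set.Icc (0 : ℝ) 1)
    (x := fun n => fc K u (ns n)) (fun n => ⟨(fc_pos K u (ns n)).le, fc_le K u (ns n)⟩)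
  have hn2 : Tendsto (fun n => ns (σ n)) atTop atTop := hns.comp hσ.tendsto_atTop
  have hσc' : Tendsto (fun n => fc K u (ns (σ n))) atTop (𝓝 κ) := hσc
  have A' := scaled_AG H0.hm H H0.hK H0.hKΩ hn2 (c := fun n => fc K u (ns (σ n)))
    (fun n => fc_four K u _) hσc'
  have t1 := (A'.two isOpen_interior i j).lim _ hψ
  have t2 : Tendsto (fun n => ((fc K u (ns (σ n)) : ℝ) : ℂ) ^ 2 *
      ∫ z, ((ψ z : ℝ) : ℂ) * cc (MM m ea ν) i j z) atTop
      (𝓝 (((κ : ℝ) : ℂ) ^ 2 * ∫ z, ((ψ z : ℝ) : ℂ) * cc (MM m ea ν) i j z)) :=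
    (((continuous_ofReal.tendsto κ).comp hσc').pow 2).mul_const _
  have t3 := t1.sub t2
  refine ⟨σ, ?_⟩
  have e0 : (∫ z, ((ψ z : ℝ) : ℂ) * cc (fun k z => (κ : ℂ) ^ 2 * MM m ea ν k z) i j z) -
      ((κ : ℝ) : ℂ) ^ 2 * ∫ z, ((ψ z : ℝ) : ℂ) * cc (MM m ea ν) i j z = 0 := by
    rw [← integral_const_mul, sub_eq_zero]
    congr 1; funext z
    rw [cc_sc]; ring
  rw [e0] at t3
  refine t3.congr fun n => ?_
  rw [mul_sub]
  congr 1
  rw [← integral_const_mul]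
  congr 1; funext z
  by_cases hz : z ∈ interior K
  · rw [scaled_wv H H0.hKΩ hn2 (fun n => fc K u (ns (σ n))) i n hz,
      scaled_wv H H0.hKΩ hn2 (fun n => fc K u (ns (σ n))) j n hz]
    ring
  · rw [TF.zero hψ hz]; simp

theorem fe2 (hE1 : S_FE1) : S_FE2 := by
  intro m ν Ω a h u K H0 φ hφ hφ0 i j c hc hcc ε hε
  haveI := H0.mk1
  have hm := H0.hm
  have hp := H0.hp
  have H := H0.H
  have hK := H0.hK
  have hKΩ := H0.hKΩ
  have hB : IsOpen (interior K) := isOpen_interior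
  have hBΩ : interior K ⊆ Ω := interior_subset.trans hKΩ
  have hmB : ∀ K' : Set ℂ, IsCompact K' → K' ⊆ interior K → MemLp m 2 (volume.restrict K') :=
    fun K' hK' hKB => hm K' hK' (hKB.trans hBΩ)
  have hpB : ∀ᵐ z ∂(volume.restrict (interior K)), par ea (ν z) = 0 :=
    ae_restrict_of_ae_restrict_of_subset hBΩ hp
  have cu : ∀ n, ContinuousOn (fun z => u n z ^ 4) K := fun n =>
    ((H.sm n).continuousOn.mono hKΩ).pow 4
  have T0 : ∀ n, 0 ≤ ∫ z in K, u n z ^ 4 := fun n => integral_nonneg fun z => by positivity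
  obtain ⟨Mφ, hMφ⟩ := hφ.2.1.exists_bound_of_continuousOn hφ.1.continuous.continuousOn
  have hφM : ∀ z, φ z ≤ |Mφ| := by
    intro z
    by_cases hz : z ∈ tsupport φ
    · exact (le_abs_self _).trans ((hMφ z hz).trans (le_abs_self _))
    · rw [image_eq_zero_of_notMem_tsupport hz]; exact abs_nonneg _
  obtain ⟨A, hAd⟩ : ∃ A : ℝ, A = ∫ z, φ z * (m z * m z) := ⟨_, rfl⟩
  have A0 : 0 ≤ A := by
    rw [hAd]; exact integral_nonneg fun z => mul_nonneg (hφ0 z) (mul_self_nonneg _)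
  obtain ⟨w, hw⟩ : ∃ w : ℤ → ℕ → ℂ → ℂ, w = ww a h (fun n z => (u n z : ℂ)) := ⟨_, rfl⟩
  have saB : ContDiffOn ℝ ∞ a (interior K) := H.sa.mono hBΩ
  have smB : ∀ n, ContDiffOn ℝ ∞ (u n) (interior K) := fun n => (H.sm n).mono hBΩ
  have cw : ∀ q n, ContinuousOn (w q n) (interior K) := fun q n => by
    rw [hw]; exact ww_co hB h saB smB q n
  -- the scaled fourth moments
  have EB : ∀ n, fc K u n ^ 4 * ∫ z, φ z * u n z ^ 4 ≤ |Mφ| := by
    intro n
    have i4 : Integrable (fun z => φ z * u n z ^ 4) :=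
      Pool.Agent.W311.RW.int_mul hB hφ ((smB n).continuousOn.pow 4)
    have e3 : ∫ z, φ z * u n z ^ 4 ≤ |Mφ| * ∫ z in K, u n z ^ 4 := by
      rw [← integral_const_mul, ← integral_indicator hK.measurableSet]
      have i3 : IntegrableOn (fun z => |Mφ| * u n z ^ 4) K :=
        (continuousOn_const.mul (cu n)).integrableOn_compact hK
      refine integral_mono i4 ((integrable_indicator_iff hK.measurableSet).2 i3) fun z => ?_
      by_cases hz : z ∈ K
      · rw [Set.indicator_of_mem hz]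
        exact mul_le_mul_of_nonneg_right (hφM z) (by positivity)
      · rw [Set.indicator_of_notMem hz]
        show φ z * _ ≤ 0
        rw [TF.zero hφ (fun h => hz (interior_subset h)), zero_mul]
    have e4 := fc_mul K u n
    have f4 : 0 ≤ fc K u n ^ 4 := pow_nonneg (fc_pos K u n).le 4
    have e5 := mul_le_mul_of_nonneg_left e3 f4
    have e6 : fc K u n ^ 4 * (|Mφ| * ∫ z in K, u n z ^ 4) = |Mφ| * (1 - fc K u n ^ 4) := by
      rw [← e4]; ring
    have e7 : |Mφ| * (1 - fc K u n ^ 4) ≤ |Mφ| := by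
      have := mul_nonneg (abs_nonneg Mφ) f4
      linarith
    linarith
  have hcB : ContDiffOn ℝ ∞ c (interior K) := hc.mono hBΩ
  have hcr : ContDiffOn ℝ ∞ (fun z => (c z).re) (interior K) :=
    Complex.reCLM.contDiff.comp_contDiffOn hcB
  have hci : ContDiffOn ℝ ∞ (fun z => (c z).im) (interior K) :=
    Complex.imCLM.contDiff.comp_contDiffOn hcB
  have hφr : TF (interior K) (fun z => φ z * (c z).re) := TF.mulc hB hφ hcr
  have hφi : TF (interior K) (fun z => φ z * (c z).im) := TF.mulc hB hφ hci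
  have hccB : ∀ᵐ z : ℂ, z ∈ interior K → cc (MM m ea ν) i j z = c z :=
    (ae_restrict_iff' hB.measurableSet).1 (ae_restrict_of_ae_restrict_of_subset hBΩ hcc)
  obtain ⟨Ac, hAc⟩ : ∃ Ac : ℝ, Ac = ∫ z, φ z * ‖c z‖ ^ 2 := ⟨_, rfl⟩
  have hAc2 : ∫ z, φ z * ‖cc (MM m ea ν) i j z‖ ^ 2 = Ac := by
    rw [hAc]
    refine integral_congr_ae ?_
    filter_upwards [hccB] with z hz
    by_cases hzK : z ∈ interior K
    · rw [hz hzK]
    · rw [TF.zero hφ hzK, zero_mul, zero_mul]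
  have f0 : ∀ k, 0 ≤ fK (MM m ea ν) φ k := fun k => fK_nn hφ0 k
  have fA : ∀ k, fK (MM m ea ν) φ k ≤ A := fun k => by
    rw [hAd]; exact fK_MM (ν := ν) hmB hφ hφ0 k
  -- the choice of `N`
  obtain ⟨Q, hQ⟩ : ∃ Q : ℝ, Q = |Mφ| + 3 * A := ⟨_, rfl⟩
  have Q0 : 0 ≤ Q := by rw [hQ]; positivity
  have l1 := (Sw_lim (ν := ν) hB hmB hpB hφ (τ := sg) sg_norm).eventually
    (gt_mem_nhds (show (0 : ℝ) < ε / 16 by linarith))
  have l2 := (av_sg.mul_const (1 / 3 * Q)).eventually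
    (gt_mem_nhds (show 0 * (1 / 3 * Q) < ε / 8 by linarith))
  have l3 := ((tendsto_inv_atTop_nhds_zero_nat (𝕜 := ℝ)).const_mul (|((i - j : ℤ) : ℝ)| * A)).eventually
    (gt_mem_nhds (show |((i - j : ℤ) : ℝ)| * A * 0 < ε / 16 by linarith))
  obtain ⟨N0, hN0⟩ := Filter.eventually_atTop.1
    (((l1.and l2).and l3).and (eventually_gt_atTop 0))
  refine ⟨N0, fun N hNN => ?_⟩
  obtain ⟨⟨⟨hN1', hN2⟩, hN3⟩, hN⟩ := hN0 N hNN
  have hN1 : Swg (MM m ea ν) φ i j ((Finset.Icc 1 N).map Nat.castEmbedding)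
      (fun k => (N : ℂ)⁻¹ * sg k) < ε / 8 := by
    have := Swg_le f0 fA i j N
    linarith
  obtain ⟨s, hs⟩ : ∃ s : Finset ℤ, s = (Finset.Icc 1 N).map Nat.castEmbedding := ⟨_, rfl⟩
  obtain ⟨α, hα⟩ : ∃ α : ℤ → ℂ, α = fun k => (N : ℂ)⁻¹ * sg k := ⟨_, rfl⟩
  have s1 : ∑ k ∈ s, sg k * α k = 1 := by rw [hs, hα]; exact sum_one hN
  have hFG : ∀ n z, FG a h u i j N n z = FA w i j s α n z := by
    intro n z; rw [hw, hs, hα]; rfl
  have cF : ∀ n, ContinuousOn (FA w i j s α n) (interior K) := fun n => by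
    unfold FA
    exact continuousOn_finsetSum _ fun q _ => continuousOn_const.mul ((cw _ n).mul (cw _ n))
  have mean : ∀ ψ : ℂ → ℝ, TF (interior K) ψ → Tendsto (fun n => ((fc K u n : ℝ) : ℂ) ^ 2 *
      ((∫ z, ((ψ z : ℝ) : ℂ) * FA w i j s α n z) - ∫ z, ((ψ z : ℝ) : ℂ) * c z)) atTop (𝓝 0) := by
    intro ψ hψ
    have h1 : ∀ k : ℤ, Tendsto (fun n => ((fc K u n : ℝ) : ℂ) ^ 2 * ((∫ z, ((ψ z : ℝ) : ℂ) *
        (w (i + k) n z * w (j - k) n z)) - sg k * ∫ z, ((ψ z : ℝ) : ℂ) * c z)) atTop (𝓝 0) := by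
      intro k
      have h2 := two_sc H0 (i + k) (j - k) hψ
      rw [← hw] at h2
      refine h2.congr fun n => ?_
      congr 2
      rw [← integral_const_mul]
      refine integral_congr_ae ?_
      filter_upwards [hccB] with z hz
      rw [cc_sk]
      by_cases hzK : z ∈ interior K
      · rw [hz hzK]; ring
      · rw [TF.zero hψ hzK]; push_cast; ring
    have h3 := tendsto_finsetSum s fun k _ => (h1 k).const_mul (α k)
    simp only [mul_zero, Finset.sum_const_zero] at h3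
    refine h3.congr fun n => ?_
    have jj : ∀ k : ℤ, Integrable (fun z => α k * (((ψ z : ℝ) : ℂ) *
        (w (i + k) n z * w (j - k) n z))) := fun k =>
      (TF.cint hψ ((cw (i + k) n).mul (cw (j - k) n))).const_mul _
    have e1 : ∫ z, ((ψ z : ℝ) : ℂ) * FA w i j s α n z =
        ∑ k ∈ s, α k * ∫ z, ((ψ z : ℝ) : ℂ) * (w (i + k) n z * w (j - k) n z) := by
      unfold FA
      simp only [← integral_const_mul]
      rw [← integral_finsetSum _ fun k _ => jj k]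
      congr 1; funext z
      rw [Finset.mul_sum]
      refine Finset.sum_congr rfl fun k _ => ?_
      ring
    have e4 : ∑ k ∈ s, α k * (sg k * ∫ z, ((ψ z : ℝ) : ℂ) * c z) = ∫ z, ((ψ z : ℝ) : ℂ) * c z := by
      have e5 : ∑ k ∈ s, α k * (sg k * ∫ z, ((ψ z : ℝ) : ℂ) * c z) =
          (∑ k ∈ s, sg k * α k) * ∫ z, ((ψ z : ℝ) : ℂ) * c z := by
        rw [Finset.sum_mul]
        refine Finset.sum_congr rfl fun k _ => ?_
        ring
      rw [e5, s1, one_mul]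
    rw [e1, mul_sub]
    nth_rewrite 2 [← e4]
    rw [Finset.mul_sum, Finset.mul_sum, ← Finset.sum_sub_distrib]
    refine Finset.sum_congr rfl fun k _ => ?_
    ring
  obtain ⟨X, hX⟩ : ∃ X : ℕ → ℝ, X = fun n =>
      (∫ z, (((φ z * (c z).re : ℝ)) : ℂ) * FA w i j s α n z).re +
      (∫ z, (((φ z * (c z).im : ℝ)) : ℂ) * FA w i j s α n z).im := ⟨_, rfl⟩
  have cc0 : ContinuousOn c (interior K) := hcB.continuousOn
  have var : ∀ n, ∫ z, φ z * ‖FA w i j s α n z - c z‖ ^ 2 =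
      (∫ z, φ z * ‖FA w i j s α n z‖ ^ 2) - 2 * X n + Ac := by
    intro n
    have j1 : Integrable (fun z => φ z * ‖FA w i j s α n z‖ ^ 2) :=
      Pool.Agent.W311.RW.int_mul hB hφ ((cF n).norm.pow 2)
    have j2 : Integrable (fun z => (((φ z * (c z).re : ℝ)) : ℂ) * FA w i j s α n z) :=
      TF.cint hφr (cF n)
    have j2' : Integrable (fun z => (((φ z * (c z).im : ℝ)) : ℂ) * FA w i j s α n z) :=
      TF.cint hφi (cF n)
    have j3 : Integrable (fun z => φ z * ‖c z‖ ^ 2) :=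
      Pool.Agent.W311.RW.int_mul hB hφ (cc0.norm.pow 2)
    have j4 : Integrable (fun z => 2 * (((((φ z * (c z).re : ℝ)) : ℂ) * FA w i j s α n z).re +
        ((((φ z * (c z).im : ℝ)) : ℂ) * FA w i j s α n z).im)) := (j2.re.add j2'.im).const_mul 2
    have j5 : Integrable (fun z => φ z * ‖FA w i j s α n z‖ ^ 2 -
      2 * (((((φ z * (c z).re : ℝ)) : ℂ) * FA w i j s α n z).re +
        ((((φ z * (c z).im : ℝ)) : ℂ) * FA w i j s α n z).im)) := j1.sub j4
    have eX : X n = ∫ z, (((((φ z * (c z).re : ℝ)) : ℂ) * FA w i j s α n z).re +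
        ((((φ z * (c z).im : ℝ)) : ℂ) * FA w i j s α n z).im) := by
      rw [hX]
      simp only
      rw [show ((∫ z, (((φ z * (c z).re : ℝ)) : ℂ) * FA w i j s α n z).re) =
        ∫ z, ((((φ z * (c z).re : ℝ)) : ℂ) * FA w i j s α n z).re from
        (integral_re j2).symm, show ((∫ z, (((φ z * (c z).im : ℝ)) : ℂ) * FA w i j s α n z).im) =
        ∫ z, ((((φ z * (c z).im : ℝ)) : ℂ) * FA w i j s α n z).im from
        (integral_im j2').symm]
      exact (integral_add j2.re j2'.im).symm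
    rw [hAc, eX, ← integral_const_mul, ← integral_sub j1 j4, ← integral_add j5 j3]
    congr 1; funext z
    have e5 : ‖FA w i j s α n z - c z‖ ^ 2 = ‖FA w i j s α n z‖ ^ 2 -
        2 * ((c z).re * (FA w i j s α n z).re + (c z).im * (FA w i j s α n z).im) + ‖c z‖ ^ 2 := by
      simp only [Complex.sq_norm, normSq_apply, sub_re, sub_im]
      ring
    have e6 : ((((φ z * (c z).re : ℝ)) : ℂ) * FA w i j s α n z).re =
        φ z * ((c z).re * (FA w i j s α n z).re) := by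
      simp only [mul_re, ofReal_re, ofReal_im]
      ring
    have e7 : ((((φ z * (c z).im : ℝ)) : ℂ) * FA w i j s α n z).im =
        φ z * ((c z).im * (FA w i j s α n z).im) := by
      simp only [mul_im, ofReal_re, ofReal_im]
      ring
    rw [e5, e6, e7]; ring
  have hAcX : Ac = (∫ z, (((φ z * (c z).re : ℝ)) : ℂ) * c z).re +
      (∫ z, (((φ z * (c z).im : ℝ)) : ℂ) * c z).im := by
    have k2 : Integrable (fun z => (((φ z * (c z).re : ℝ)) : ℂ) * c z) := TF.cint hφr cc0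
    have k2' : Integrable (fun z => (((φ z * (c z).im : ℝ)) : ℂ) * c z) := TF.cint hφi cc0
    rw [show ((∫ z, (((φ z * (c z).re : ℝ)) : ℂ) * c z).re) =
        ∫ z, ((((φ z * (c z).re : ℝ)) : ℂ) * c z).re from
        (integral_re k2).symm, show ((∫ z, (((φ z * (c z).im : ℝ)) : ℂ) * c z).im) =
        ∫ z, ((((φ z * (c z).im : ℝ)) : ℂ) * c z).im from
        (integral_im k2').symm, hAc]
    refine Eq.trans ?_ (integral_add k2.re k2'.im)
    congr 1; funext z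
    show φ z * ‖c z‖ ^ 2 =
      ((((φ z * (c z).re : ℝ)) : ℂ) * c z).re + ((((φ z * (c z).im : ℝ)) : ℂ) * c z).im
    simp only [Complex.sq_norm, normSq_apply, mul_re, mul_im, ofReal_re, ofReal_im]
    ring
  have mre : Tendsto (fun n => fc K u n ^ 2 * (X n - Ac)) atTop (𝓝 0) := by
    have t1 := (Complex.continuous_re.tendsto _).comp (mean _ hφr)
    have t2 := (Complex.continuous_im.tendsto _).comp (mean _ hφi)
    have t3 := t1.add t2
    rw [zero_re, zero_im, add_zero] at t3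
    refine t3.congr fun n => ?_
    rw [hX, hAcX]
    simp only [Function.comp_apply]
    have e1 : ∀ x : ℂ, (((fc K u n : ℝ) : ℂ) ^ 2 * x).re = fc K u n ^ 2 * x.re := by
      intro x; rw [← ofReal_pow, re_ofReal_mul]
    have e2 : ∀ x : ℂ, (((fc K u n : ℝ) : ℂ) ^ 2 * x).im = fc K u n ^ 2 * x.im := by
      intro x; rw [← ofReal_pow, im_ofReal_mul]
    rw [e1, e2, sub_re, sub_im]
    ring
  have ev1 := mre.eventually (lt_mem_nhds (show -(ε / 8) < 0 by linarith))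
  have ev1' := mre.eventually (gt_mem_nhds (show (0 : ℝ) < ε / 8 by linarith))
  have ev2 := hE1 H0 hφ hφ0 i j s α (ε / 8) (by positivity)
  filter_upwards [ev1, ev1', ev2] with n f1 f2 g2
  rw [← hw, ← hAd, hAc2, s1, norm_one, one_pow, mul_one, mul_one] at g2
  have g5 : Swg (MM m ea ν) φ i j s α < ε / 8 := by rw [hs, hα]; exact hN1
  have g6 : ‖∑ k ∈ s, α k‖ ^ 2 * (1 / 3 * Q) < ε / 8 := by
    have e7 : ∑ k ∈ s, α k = ∑ k ∈ Finset.Icc 1 N, (N : ℂ)⁻¹ * sg (k : ℤ) := by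
      rw [hs, hα, Finset.sum_map]
      rfl
    rw [e7]; exact hN2
  obtain ⟨F, hF⟩ : ∃ F : ℝ, F = fc K u n := ⟨_, rfl⟩
  have F0 : 0 < F := by rw [hF]; exact fc_pos K u n
  have F1 : F ≤ 1 := by rw [hF]; exact fc_le K u n
  have F2 : F ^ 2 ≤ 1 := pow_le_one₀ F0.le F1
  have F4 : F ^ 4 ≤ 1 := pow_le_one₀ F0.le F1
  have F40 : 0 < F ^ 4 := pow_pos F0 4
  have F20 : 0 < F ^ 2 := pow_pos F0 2
  have Fm : F ^ 4 * (1 + ∫ z in K, u n z ^ 4) = 1 := by rw [hF]; exact fc_mul K u n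
  have EBn : F ^ 4 * ∫ z, φ z * u n z ^ 4 ≤ |Mφ| := by rw [hF]; exact EB n
  rw [← hF] at f1 f2
  have E0 : 0 ≤ ∫ z, φ z * u n z ^ 4 :=
    integral_nonneg fun z => mul_nonneg (hφ0 z) (by positivity)
  obtain ⟨E, hE⟩ : ∃ E : ℝ, E = (∫ z, φ z * u n z ^ 4) - 3 * A := ⟨_, rfl⟩
  have hEQ : |F ^ 4 * E| ≤ Q := by
    rw [abs_le, hQ, hE]
    have h1 : 0 ≤ F ^ 4 * ∫ z, φ z * u n z ^ 4 := mul_nonneg F40.le E0
    have h2 : F ^ 4 * (3 * A) ≤ 3 * A := by
      have := mul_le_mul_of_nonneg_right F4 (show 0 ≤ 3 * A by linarith)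
      linarith
    have h3 : 0 ≤ F ^ 4 * (3 * A) := mul_nonneg F40.le (by linarith)
    have h4 : 0 ≤ |Mφ| := abs_nonneg _
    rw [mul_sub]
    constructor <;> linarith
  have g8 : |1 / 3 * ‖∑ k ∈ s, α k‖ ^ 2 * (F ^ 4 * E)| ≤
      ‖∑ k ∈ s, α k‖ ^ 2 * (1 / 3 * Q) := by
    rw [abs_mul, abs_of_nonneg (show 0 ≤ 1 / 3 * ‖∑ k ∈ s, α k‖ ^ 2 by positivity)]
    have h1 := mul_le_mul_of_nonneg_left hEQ
      (show 0 ≤ 1 / 3 * ‖∑ k ∈ s, α k‖ ^ 2 by positivity)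
    linarith
  -- the scaled sequence
  have S1 : ∫ z, φ z * ‖FG a h (sc K u) i j N n z - ((F ^ 2 : ℝ) : ℂ) * c z‖ ^ 2 =
      F ^ 4 * ∫ z, φ z * ‖FA w i j s α n z - c z‖ ^ 2 := by
    rw [← integral_const_mul]
    congr 1; funext z
    by_cases hz : z ∈ interior K
    · have e2 : FG a h (sc K u) i j N n z = ((F : ℝ) : ℂ) ^ 2 * FG a h u i j N n z := by
        unfold FG FA
        rw [Finset.mul_sum]
        refine Finset.sum_congr rfl fun q _ => ?_
        rw [ww_sc hB h saB smB K _ n z hz, ww_sc hB h saB smB K _ n z hz, ← hF]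
        ring
      have e3 : FG a h (sc K u) i j N n z - ((F ^ 2 : ℝ) : ℂ) * c z =
          ((F ^ 2 : ℝ) : ℂ) * (FA w i j s α n z - c z) := by
        rw [e2, hFG]; push_cast; ring
      rw [e3, norm_mul, norm_real, Real.norm_eq_abs, abs_of_pos F20]
      ring
    · rw [TF.zero hφ hz]; ring
  rw [← hF, S1, var n, ← hAd, ← hE]
  rw [← hE] at g2
  have g9 : |F ^ 4 * ((∫ z, φ z * ‖FA w i j s α n z‖ ^ 2) - (Ac + (1 / 3 * ‖∑ k ∈ s, α k‖ ^ 2 +
      kap i j) * E))| ≤ ε / 8 + ε / 8 := by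
    rw [abs_mul, abs_of_pos F40]
    have h1 := mul_le_mul_of_nonneg_left g2 F40.le
    have h2 : 0 ≤ Swg (MM m ea ν) φ i j s α := le_of_not_gt fun hlt => by
      have hN4 : 0 ≤ Swg (MM m ea ν) φ i j s α :=
        Finset.sum_nonneg fun k _ => Finset.sum_nonneg fun l _ =>
          mul_nonneg (by positivity) (add_nonneg (f0 _) (f0 _))
      linarith
    have h3 : F ^ 4 * Swg (MM m ea ν) φ i j s α ≤ Swg (MM m ea ν) φ i j s α := by
      have := mul_le_mul_of_nonneg_right F4 h2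
      linarith
    have h4 : F ^ 4 * (ε / 8 * (1 + ∫ z in K, u n z ^ 4)) = ε / 8 := by
      calc F ^ 4 * (ε / 8 * (1 + ∫ z in K, u n z ^ 4)) =
          ε / 8 * (F ^ 4 * (1 + ∫ z in K, u n z ^ 4)) := by ring
        _ = ε / 8 := by rw [Fm, mul_one]
    rw [mul_add, h4] at h1
    linarith
  have g10 : |F ^ 2 * (F ^ 2 * (X n - Ac))| ≤ ε / 8 := by
    rw [abs_mul, abs_of_pos F20]
    have h1 : |F ^ 2 * (X n - Ac)| ≤ ε / 8 := by
      rw [abs_le]; constructor <;> linarith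
    calc F ^ 2 * |F ^ 2 * (X n - Ac)| ≤ 1 * (ε / 8) :=
          mul_le_mul F2 h1 (abs_nonneg _) (by norm_num)
      _ = ε / 8 := one_mul _
  have e9 : F ^ 4 * ((∫ z, φ z * ‖FA w i j s α n z‖ ^ 2) - 2 * X n + Ac) - kap i j * (F ^ 4 * E) =
      F ^ 4 * ((∫ z, φ z * ‖FA w i j s α n z‖ ^ 2) - (Ac + (1 / 3 * ‖∑ k ∈ s, α k‖ ^ 2 +
      kap i j) * E)) + 1 / 3 * ‖∑ k ∈ s, α k‖ ^ 2 * (F ^ 4 * E) -
      2 * (F ^ 2 * (F ^ 2 * (X n - Ac))) := by ring
  rw [e9]
  rw [abs_le] at g8 g9 g10 ⊢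
  constructor <;> linarith [g8.1, g8.2, g9.1, g9.2, g10.1, g10.2]

end Pool.Agent.P8H4.VC
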